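import Pool.Agent.Helper26.OS.Defs

/-!
# OS, block JS': the Jacobian determinant is a unit along the orbits in `B`
-/

set_option autoImplicit false

namespace Pool.Agent.Helper26.OS

open MvPolynomial Pool.Agent.Helper61.TH Pool.Agent.Helper87.FK Pool.Agent.Helper26.OB

noncomputable section

/-- the value of an integral polynomial at an integral point is integral -/
theorem norm_eval_le98 {p : ℕ} [Fact p.Prime] (τ : ℂ →+* PadicAlgCl p) {ι : Type} (P : MvPolynomial ι ℂ)
    (hP : ∀ s, ‖τ (coeff s P)‖ ≤ 1) (t : ι → ℂ) (ht : ∀ i, ‖τ (t i)‖ ≤ 1) : ‖τ (eval t P)‖ ≤ 1 := by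
  rw [← mem_Oc, eval_eq, map_sum]
  refine sum_mem fun s _ => ?_
  rw [map_mul, map_prod]
  refine mul_mem (mem_Oc.2 (hP s)) (prod_mem fun i _ => ?_)
  rw [map_pow]
  exact pow_mem (mem_Oc.2 (ht i)) _

/-- polynomials with coefficients in a subfield -/
theorem exists_map98 (A : Subfield ℂ) {ι : Type} (P : MvPolynomial ι ℂ) (hP : ∀ s, coeff s P ∈ A) :
    ∃ G : MvPolynomial ι A, map A.subtype G = P := by
  have h3 : P ∈ Set.range (map A.subtype) := by
    rw [mem_range_map_iff_coeffs_subset]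
    intro x hx
    rw [coeffs, Finset.coe_image] at hx
    obtain ⟨s, -, rfl⟩ := hx
    exact ⟨⟨_, hP s⟩, rfl⟩
  exact h3

/-- the Jacobian determinant as a polynomial -/
theorem exists_jacPoly98 (A : Subfield ℂ) {m : ℕ} (F : Fin m → MvPolynomial (Fin m) ℂ)
    (hF : ∀ i s, coeff s (F i) ∈ A) : ∃ J : MvPolynomial (Fin m) A,
      ∀ t, (jac F t).det = eval t (map A.subtype J) := by
  choose G hG using fun i => exists_map98 A (F i) (hF i)
  refine ⟨(Matrix.of fun i j => pderiv j (G i)).det, fun t => ?_⟩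
  rw [RingHom.map_det, RingHom.map_det]
  congr 1
  ext i j
  show eval t (pderiv j (F i)) = eval t (map A.subtype (pderiv j (G i)))
  rw [← hG, pderiv_map]

/-- **JS'**: the Jacobian determinant is a unit along the orbits in `B` (`B` and the determinant generate the unit ideal) -/
theorem jacB (A : Subfield ℂ) (hA : ∀ z : ℂ, IsAlgebraic A z → z ∈ A) {m : ℕ}
    (B : Set (MvPolynomial (Fin m) ℂ)) (hB : ∀ g ∈ B, ∀ s, coeff s g ∈ A)
    (F : Fin m → MvPolynomial (Fin m) ℂ) (hF : ∀ i s, coeff s (F i) ∈ A)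
    (het : ∀ t : Fin m → ℂ, (∀ g ∈ B, eval t g = 0) → (jac F t).det ≠ 0) : ∃ Z : Finset ℂ, (∀ z ∈ Z, z ∈ A) ∧
      ∀ (p : ℕ) [Fact p.Prime] (τ : ℂ →+* PadicAlgCl p), Un τ Z → ∀ t : Fin m → ℂ, (∀ g ∈ B, eval t g = 0) →
        (∀ i, ‖τ (t i)‖ ≤ 1) → ‖τ (jac F t).det‖ = 1 := by
  classical
  have _ := hA
  obtain ⟨J, hJ⟩ := exists_jacPoly98 A F hF
  have hev : ∀ (t : Fin m → ℂ) (G : MvPolynomial (Fin m) A), aeval t G = eval t (map A.subtype G) := by
    intro t G
    rw [eval_map]
    rfl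
  let S : Set (MvPolynomial (Fin m) A) := {G | map A.subtype G ∈ B}
  have h1 : zeroLocus ℂ (Ideal.span (S ∪ {J})) = ∅ := by
    rw [zeroLocus_span, Set.eq_empty_iff_forall_notMem]
    intro t ht
    have h2 : ∀ g ∈ B, eval t g = 0 := by
      intro g hg
      obtain ⟨G, hG⟩ := exists_map98 A g (hB g hg)
      have h3 : G ∈ S := by
        show map A.subtype G ∈ B
        rw [hG]
        exact hg
      rw [← hG, ← hev]
      exact ht G (Set.mem_union_left _ h3)
    refine het t h2 ?_
    rw [hJ, ← hev]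
    exact ht J (Set.mem_union_right _ rfl)
  have h2 : (Ideal.span (S ∪ {J})).radical = ⊤ := by
    rw [← vanishingIdeal_zeroLocus_eq_radical (K := ℂ), h1, vanishingIdeal_empty]
  have h3 : (1 : MvPolynomial (Fin m) A) ∈ Ideal.span (S ∪ {J}) := by
    rw [← Ideal.eq_top_iff_one]
    exact Ideal.radical_eq_top.mp h2
  rw [Ideal.span_union, Submodule.mem_sup] at h3
  obtain ⟨v, hv, w, hw, hvw⟩ := h3
  obtain ⟨a, rfl⟩ := Ideal.mem_span_singleton'.1 hw
  have hone : ∀ t : Fin m → ℂ, (∀ g ∈ B, eval t g = 0) →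
      eval t (map A.subtype a) * eval t (map A.subtype J) = 1 := by
    intro t ht
    have h4 : Ideal.span S ≤ RingHom.ker (aeval t : MvPolynomial (Fin m) A →ₐ[A] ℂ) := by
      rw [Ideal.span_le]
      intro G hG
      rw [SetLike.mem_coe, RingHom.mem_ker, hev]
      exact ht _ hG
    have h5 : aeval t v = 0 := h4 hv
    have h6 := congrArg (aeval t : MvPolynomial (Fin m) A →ₐ[A] ℂ) hvw
    rw [map_add, h5, zero_add, map_mul, map_one, hev, hev] at h6
    exact h6
  refine ⟨(J.support.image fun s => ((coeff s J : A) : ℂ)) ∪ (a.support.image fun s => ((coeff s a : A) : ℂ)),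
    ?_, ?_⟩
  · intro z hz
    rw [Finset.mem_union, Finset.mem_image, Finset.mem_image] at hz
    rcases hz with ⟨s, -, rfl⟩ | ⟨s, -, rfl⟩
    · exact Subtype.property _
    · exact Subtype.property _
  · intro p _ τ hτ t ht hti
    have h1 : ∀ s, ‖τ (coeff s (map A.subtype J))‖ ≤ 1 := by
      intro s
      rw [coeff_map]
      by_cases hs : s ∈ J.support
      · exact (hτ _ (Finset.mem_union_left _ (Finset.mem_image_of_mem _ hs))).1
      · rw [notMem_support_iff.1 hs, map_zero, map_zero, norm_zero]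
        exact zero_le_one
    have h2 : ∀ s, ‖τ (coeff s (map A.subtype a))‖ ≤ 1 := by
      intro s
      rw [coeff_map]
      by_cases hs : s ∈ a.support
      · exact (hτ _ (Finset.mem_union_right _ (Finset.mem_image_of_mem _ hs))).1
      · rw [notMem_support_iff.1 hs, map_zero, map_zero, norm_zero]
        exact zero_le_one
    have h3 := norm_eval_le98 τ _ h1 t hti
    have h4 := norm_eval_le98 τ _ h2 t hti
    have h9 : ‖τ (eval t (map A.subtype a))‖ * ‖τ (eval t (map A.subtype J))‖ = 1 := by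
      rw [← norm_mul, ← map_mul, hone t ht, map_one, norm_one]
    rw [hJ]
    refine le_antisymm h3 ?_
    calc (1 : ℝ) = ‖τ (eval t (map A.subtype a))‖ * ‖τ (eval t (map A.subtype J))‖ := h9.symm
      _ ≤ 1 * ‖τ (eval t (map A.subtype J))‖ := mul_le_mul_of_nonneg_right h4 (norm_nonneg _)
      _ = ‖τ (eval t (map A.subtype J))‖ := one_mul _

end

end Pool.Agent.Helper26.OS
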