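import Pool.Agent.Helper26.OS.Defs
import Pool.Agent.Helper10.OS.CR

/-!
# OS, block CP: the orbits of the finite critical points of a polynomial are shorter than the degree
-/

set_option autoImplicit false

namespace Pool.Agent.Helper26.OS

open MvPolynomial Pool.Agent.Helper61.TH Pool.Agent.Helper87.FK Pool.Agent.Helper26.OB
open Pool.Agent.Helper10.OB (minimalPeriod_le_card ol_fin)
open Pool.Agent.Helper10.OS (wk wk_ne_zero eval_wk wrh_smul')

noncomputable section

/-- the Wronskian of a polynomial has degree at most `d - 1` -/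
theorem natDegree_wk98 {κ : Type} [Field κ] {k : ℕ} {d : Fin k → ℕ} (c : Idx d → κ) (a : Fin k)
    (hpol : ∀ j : Fin (d a + 1), c ⟨a, (1, j)⟩ = if (j : ℕ) = 0 then 1 else 0) :
    (wk c a).natDegree ≤ d a - 1 := by
  refine Polynomial.natDegree_sum_le_of_forall_le _ _ fun i _ => ?_
  refine Polynomial.natDegree_sum_le_of_forall_le _ _ fun j _ => ?_
  by_cases h : (j : ℕ) = 0
  · refine (Polynomial.natDegree_C_mul_X_pow_le _ _).trans ?_
    have h1 := i.2
    omega
  · rw [hpol j, if_neg h, mul_zero, Polynomial.C_0, zero_mul, Polynomial.natDegree_zero]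
    exact Nat.zero_le _

/-- **CP**: the orbits of the finite critical points of a polynomial (`G_a = 1`) are shorter than the degree: `x 0 / x 1` is a
root of `∑ i c_i z^(i-1)`, fixed by `σ`, of degree `d a - 1` (`c_(d a) ≠ 0` by good reduction at `![1, 0]`, `d a < p`) -/
theorem crP {κ : Type} [Field κ] [IsAlgClosed κ] (p : ℕ) [Fact p.Prime] [CharP κ p] (σ : κ →+* κ) {k : ℕ}
    {d : Fin k → ℕ} (c : Idx d → κ) (hc : ∀ q, σ (c q) = c q) (a : Fin k) (hd1 : 1 ≤ d a) (hp : d a < p)
    (hpol : ∀ j : Fin (d a + 1), c ⟨a, (1, j)⟩ = if (j : ℕ) = 0 then 1 else 0)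
    (hgood : ∀ x : Fin 2 → κ, x ≠ 0 → ev (form c a) x ≠ 0) (x : Fin 2 → κ) (hx1 : x 1 ≠ 0) (hw : wrh c a x = 0) :
    ol σ x ≤ d a - 1 := by
  classical
  have hW := wk_ne_zero p c a hd1 hp hgood
  rw [ol_fin _ hx1]
  have hz : x 0 / x 1 ∈ (wk c a).roots.toFinset := by
    rw [Multiset.mem_toFinset, Polynomial.mem_roots hW, Polynomial.IsRoot.def]
    have h3 := eval_wk c a (fun i => (x 1)⁻¹ * x i) (inv_mul_cancel₀ hx1)
    rw [wrh_smul', hw, mul_zero] at h3
    rw [div_eq_inv_mul]
    exact h3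
  have hS : ∀ y ∈ (wk c a).roots.toFinset, σ y ∈ (wk c a).roots.toFinset := by
    intro y hy
    rw [Multiset.mem_toFinset, Polynomial.mem_roots hW, Polynomial.IsRoot.def] at hy ⊢
    have h3 : (wk c a).map σ = wk c a := by
      rw [wk, Polynomial.map_sum]
      refine Finset.sum_congr rfl fun i _ => ?_
      rw [Polynomial.map_sum]
      refine Finset.sum_congr rfl fun j _ => ?_
      have h5 : σ (((i : ℕ) - (j : ℕ) : κ) * c ⟨a, (0, i)⟩ * c ⟨a, (1, j)⟩) =
          ((i : ℕ) - (j : ℕ) : κ) * c ⟨a, (0, i)⟩ * c ⟨a, (1, j)⟩ := by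
        rw [map_mul, map_mul, map_sub, map_natCast, map_natCast, hc, hc]
      rw [Polynomial.map_mul, Polynomial.map_C, Polynomial.map_pow, Polynomial.map_X, h5]
    have h4 := congrArg σ hy
    rw [map_zero, ← Polynomial.eval_map_apply, h3] at h4
    exact h4
  obtain ⟨-, h4⟩ := minimalPeriod_le_card σ σ.injective _ hS _ hz
  exact h4.trans ((Multiset.toFinset_card_le _).trans ((Polynomial.card_roots' _).trans (natDegree_wk98 c a hpol)))

end

end Pool.Agent.Helper26.OS
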