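import Pool.Agent.Helper26.OS.Defs
import Pool.Agent.Helper10.OS.CR
import Pool.Agent.Helper11.OB.Red
import Pool.Agent.Helper46.OB.Alg

/-!
# OS, block CL: critical points of the reduction lift to critical points
-/

set_option autoImplicit false

namespace Pool.Agent.Helper98.OS

open Polynomial Pool.Agent.Helper61.TH Pool.Agent.Helper87.FK Pool.Agent.Helper26.OB
open Pool.Agent.Helper11.OB (rd_eq rd_of_mk rd_zero rd_wr wr_sum wrh_eq natDegree_wr)
open Pool.Agent.Helper10.OS (wk wk_ne_zero)

noncomputable section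

/-- Gauss: the coefficients of a product of linear factors -/
theorem gauss98 {p : ℕ} [Fact p.Prime] (s : Multiset (PadicAlgCl p)) : ∀ n,
    ‖((s.map fun r => X - C r).prod).coeff n‖ ≤ (s.map fun r => max 1 ‖r‖).prod := by
  induction s using Multiset.induction_on with
  | empty =>
    intro n
    rw [Multiset.map_zero, Multiset.prod_zero, Multiset.map_zero, Multiset.prod_zero, coeff_one]
    split_ifs
    · rw [norm_one]
    · rw [norm_zero]
      exact zero_le_one
  | cons r s ih =>
    intro n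
    set Q := (s.map fun r => X - C r).prod with hQ
    set M := (s.map fun r => max 1 ‖r‖).prod with hM
    have hM0 : 0 ≤ M := (norm_nonneg _).trans (ih 0)
    rw [Multiset.map_cons, Multiset.prod_cons, Multiset.map_cons, Multiset.prod_cons, ← hQ, ← hM,
      sub_mul, coeff_sub, coeff_C_mul]
    have h1 : ‖(X * Q).coeff n‖ ≤ max 1 ‖r‖ * M := by
      have h2 : ‖(X * Q).coeff n‖ ≤ M := by
        rcases n with _ | n
        · rw [coeff_X_mul_zero, norm_zero]
          exact hM0
        · rw [coeff_X_mul]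
          exact ih n
      exact h2.trans (le_mul_of_one_le_left hM0 (le_max_left _ _))
    have h2 : ‖r * Q.coeff n‖ ≤ max 1 ‖r‖ * M := by
      rw [norm_mul]
      exact mul_le_mul (le_max_right _ _) (ih n) (norm_nonneg _) (le_trans zero_le_one (le_max_left _ _))
    rw [sub_eq_add_neg]
    have h3 := PadicAlgCl.isNonarchimedean p ((X * Q).coeff n) (-(r * Q.coeff n))
    refine h3.trans (max_le h1 ?_)
    show ‖-(r * Q.coeff n)‖ ≤ _
    rw [norm_neg]
    exact h2

variable {p : ℕ} [Fact p.Prime] (τ : ℂ →+* PadicAlgCl p)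

/-- the coefficients of a polynomial are bounded by the leading coefficient and the roots -/
theorem gauss_map98 (W : ℂ[X]) (n : ℕ) :
    ‖τ (W.coeff n)‖ ≤ ‖τ W.leadingCoeff‖ * (W.roots.map fun r => max 1 ‖τ r‖).prod := by
  have h1 : W = C W.leadingCoeff * (W.roots.map fun r => X - C r).prod :=
    (IsAlgClosed.splits W).eq_prod_roots
  have h2 : (W.map τ) = C (τ W.leadingCoeff) * ((W.roots.map τ).map fun r => X - C r).prod := by
    conv_lhs => rw [h1]
    rw [Polynomial.map_mul, map_C, Polynomial.map_multiset_prod, Multiset.map_map, Multiset.map_map]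
    congr 3
    funext r
    simp
  have h3 := gauss98 (W.roots.map τ) n
  have h4 : ((W.roots.map τ).map fun r => max 1 ‖r‖) = W.roots.map fun r => max 1 ‖τ r‖ := by
    rw [Multiset.map_map]
    rfl
  rw [h4] at h3
  rw [← coeff_map, h2, coeff_C_mul, norm_mul]
  exact mul_le_mul_of_nonneg_left h3 (norm_nonneg _)

theorem norm_eval98 (W : ℂ[X]) (z : PadicAlgCl p) :
    ‖(W.map τ).eval z‖ = ‖τ W.leadingCoeff‖ * (W.roots.map fun r => ‖z - τ r‖).prod := by
  have h1 : W = C W.leadingCoeff * (W.roots.map fun r => X - C r).prod :=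
    (IsAlgClosed.splits W).eq_prod_roots
  have h2 : (W.map τ) = C (τ W.leadingCoeff) * ((W.roots.map τ).map fun r => X - C r).prod := by
    conv_lhs => rw [h1]
    rw [Polynomial.map_mul, map_C, Polynomial.map_multiset_prod, Multiset.map_map, Multiset.map_map]
    congr 3
    funext r
    simp
  rw [h2, eval_mul, eval_C, norm_mul, eval_multiset_prod, Multiset.map_map, Multiset.map_map]
  congr 1
  generalize W.roots = s
  induction s using Multiset.induction_on with
  | empty => simp
  | cons r s ih =>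
    rw [Multiset.map_cons, Multiset.prod_cons, Multiset.map_cons, Multiset.prod_cons, norm_mul, ih]
    simp

/-- a root near to a given integral number -/
theorem exists_root98 (W : ℂ[X]) (hW : ∃ n, ‖τ (W.coeff n)‖ = 1) (z : PadicAlgCl p) (hz : ‖z‖ ≤ 1)
    (h : ‖(W.map τ).eval z‖ < 1) : ∃ r, W.eval r = 0 ∧ ‖τ r - z‖ < 1 := by
  by_contra hcon
  push Not at hcon
  obtain ⟨n, hn⟩ := hW
  have hW0 : W ≠ 0 := by
    rintro rfl
    rw [coeff_zero, map_zero, norm_zero] at hn
    exact zero_ne_one hn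
  have h1 : ∀ r ∈ W.roots, ‖z - τ r‖ = max 1 ‖τ r‖ := by
    intro r hr
    have h2 : 1 ≤ ‖z - τ r‖ := by
      rw [norm_sub_rev]
      exact hcon r ((mem_roots hW0).1 hr)
    have h3 : ‖z - τ r‖ ≤ max 1 ‖τ r‖ := by
      have h4 := PadicAlgCl.isNonarchimedean p z (-(τ r))
      rw [← sub_eq_add_neg] at h4
      refine h4.trans (max_le_max hz ?_)
      show ‖-(τ r)‖ ≤ _
      rw [norm_neg]
    have h5 : ‖τ r‖ ≤ ‖z - τ r‖ := by
      have h4 := PadicAlgCl.isNonarchimedean p z (-(z - τ r))
      have h6 : z + -(z - τ r) = τ r := by ring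
      rw [h6] at h4
      refine h4.trans (max_le (hz.trans h2) ?_)
      show ‖-(z - τ r)‖ ≤ _
      rw [norm_neg]
    exact le_antisymm h3 (max_le h2 h5)
  have h2 := gauss_map98 τ W n
  rw [norm_eval98, Multiset.map_congr rfl h1] at h
  rw [hn] at h2
  exact absurd h2 (not_le.2 h)

/-- a root which is not integral -/
theorem exists_root_inf98 (W : ℂ[X]) (hW : ∃ n, ‖τ (W.coeff n)‖ = 1) (h : ‖τ W.leadingCoeff‖ < 1) :
    ∃ r, W.eval r = 0 ∧ 1 < ‖τ r‖ := by
  by_contra hcon
  push Not at hcon
  obtain ⟨n, hn⟩ := hW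
  have hW0 : W ≠ 0 := by
    rintro rfl
    rw [coeff_zero, map_zero, norm_zero] at hn
    exact zero_ne_one hn
  have h2 := gauss_map98 τ W n
  have h1 : ∀ r ∈ W.roots, max 1 ‖τ r‖ = (fun _ => (1 : ℝ)) r := fun r hr =>
    max_eq_left (hcon r ((mem_roots hW0).1 hr))
  rw [hn, Multiset.map_congr rfl h1, Multiset.map_const', Multiset.prod_replicate, one_pow, mul_one] at h2
  exact absurd h2 (not_le.2 h)

end

end Pool.Agent.Helper98.OS

namespace Pool.Agent.Helper26.OS

open Polynomial Pool.Agent.Helper61.TH Pool.Agent.Helper87.FK Pool.Agent.Helper26.OB Pool.Agent.Helper98.OS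
open Pool.Agent.Helper11.OB (rd_eq rd_of_mk rd_zero rd_wr wr_sum wrh_eq natDegree_wr)
open Pool.Agent.Helper10.OS (wk wk_ne_zero)

noncomputable section

/-- **CL**: critical points of the reduction lift to critical points. The binary form `wrh c a` over `ℂ` is `w` times a product
of linear forms, which can be chosen primitive under `τ`; its reduction is not zero (`p > d a`, good reduction), so `τ w` is a
unit and the zeros of the reduction are the reductions of the zeros. No finite set is needed -/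
theorem critLift {p : ℕ} [Fact p.Prime] (τ : ℂ →+* PadicAlgCl p) {k : ℕ} {d : Fin k → ℕ} (c : Idx d → ℂ)
    (hc : ∀ q, ‖τ (c q)‖ ≤ 1) (a : Fin k) (hd : 1 ≤ d a) (hp : d a < p)
    (hgood : ∀ x : Fin 2 → kk p, x ≠ 0 → ev (form (fun q => rd τ (c q)) a) x ≠ 0) (x : Fin 2 → kk p) (hx : x ≠ 0)
    (hw : wrh (fun q => rd τ (c q)) a x = 0) : ∃ y : Fin 2 → ℂ, y ≠ 0 ∧ wrh c a y = 0 ∧ (y 1 = 0 → pr x = none) ∧
      (y 1 ≠ 0 → ‖τ (y 0 / y 1)‖ ≤ 1 → pr x = some (rd τ (y 0 / y 1))) := by
  have := charP_kk p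
  have := Pool.Agent.Helper46.OB.algClosed_kk p
  set W : ℂ[X] := wr c a with hWdef
  set W' : (kk p)[X] := wr (fun q => rd τ (c q)) a with hW'def
  have hco : ∀ m, W'.coeff m = rd τ (W.coeff m) := rd_wr τ hc a
  set c' : Idx d → Oc p := fun q => ⟨τ (c q), mem_Oc.2 (hc q)⟩ with hc'
  have hlift : (wr c' a).map (algebraMap (Oc p) (PadicAlgCl p)) = W.map τ := by
    rw [map_wr, hWdef, map_wr]
    rfl
  have hred : (wr c' a).map (Ideal.Quotient.mk (mm p)) = W' := by
    rw [map_wr, hW'def]
    congr 1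
    funext q
    exact (rd_eq τ (hc q)).symm
  have hint : ∀ m, ‖τ (W.coeff m)‖ ≤ 1 := by
    intro m
    rw [← coeff_map, ← hlift, coeff_map]
    exact mem_Oc.1 ((wr c' a).coeff m).2
  have hW'0 : W' ≠ 0 := by
    have h1 := wk_ne_zero p (fun q => rd τ (c q)) a hd hp hgood
    intro h2
    exact h1 ((wr_sum (fun q => rd τ (c q)) a).symm.trans h2)
  have hunit : ∃ m, ‖τ (W.coeff m)‖ = 1 := by
    by_contra hcon
    push Not at hcon
    apply hW'0
    ext m
    rw [hco, rd_eq τ (hint m), coeff_zero, Ideal.Quotient.eq_zero_iff_mem, mem_mm]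
    exact lt_of_le_of_ne (hint m) (hcon m)
  have hwy : ∀ r : ℂ, wrh c a ![r, 1] = W.eval r := by
    intro r
    rw [wrh_eq c a hd, eval_eq_sum_range' (Nat.lt_succ_of_le (natDegree_wr c a hd))]
    refine Finset.sum_congr rfl fun m _ => ?_
    simp
  by_cases hx1 : x 1 = 0
  · have hpr : pr x = none := by rw [pr, if_pos hx1]
    have hx0 : x 0 ≠ 0 := by
      intro h0
      apply hx
      funext i
      fin_cases i
      · exact h0
      · exact hx1
    have hlast : W'.coeff (2 * d a - 2) = 0 := by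
      rw [wrh_eq _ a hd, Finset.sum_eq_single (2 * d a - 2)] at hw
      · rw [Nat.sub_self, pow_zero, mul_one] at hw
        exact (mul_eq_zero.1 hw).resolve_right (pow_ne_zero _ hx0)
      · intro m hm hne
        rw [Finset.mem_range] at hm
        rw [hx1, zero_pow (by omega), mul_zero]
      · intro hm
        exact absurd (Finset.mem_range.2 (Nat.lt_succ_self _)) hm
    by_cases hlc : W.coeff (2 * d a - 2) = 0
    · refine ⟨![1, 0], fun h => one_ne_zero (congrFun h 0), ?_, fun _ => hpr, fun h => absurd rfl h⟩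
      rw [wrh_eq _ a hd]
      refine Finset.sum_eq_zero fun m hm => ?_
      rw [Finset.mem_range] at hm
      by_cases hme : m = 2 * d a - 2
      · rw [hme]
        show W.coeff _ * _ * _ = 0
        rw [hlc, zero_mul, zero_mul]
      · have : (![1, 0] : Fin 2 → ℂ) 1 = 0 := rfl
        rw [this, zero_pow (by omega), mul_zero]
    · have hnd : W.natDegree = 2 * d a - 2 :=
        le_antisymm (natDegree_wr c a hd) (le_natDegree_of_ne_zero hlc)
      have hlt : ‖τ W.leadingCoeff‖ < 1 := by
        rw [leadingCoeff, hnd]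
        rw [hco, rd_eq τ (hint _), Ideal.Quotient.eq_zero_iff_mem, mem_mm] at hlast
        exact hlast
      obtain ⟨r, hr, hr1⟩ := exists_root_inf98 τ W hunit hlt
      refine ⟨![r, 1], fun h => one_ne_zero (congrFun h 1), by rw [hwy, hr], fun h => absurd h one_ne_zero,
        fun _ h => ?_⟩
      have h2 : (![r, 1] : Fin 2 → ℂ) 0 / (![r, 1] : Fin 2 → ℂ) 1 = r := by simp
      rw [h2] at h
      exact absurd h (not_le.2 hr1)
  · have hpr : pr x = some (x 0 / x 1) := by rw [pr, if_neg hx1]
    obtain ⟨z, hz⟩ := Ideal.Quotient.mk_surjective (x 0 / x 1)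
    have hev : W'.eval (x 0 / x 1) = 0 := by
      have h1 : wrh (fun q => rd τ (c q)) a x = x 1 ^ (2 * d a - 2) * W'.eval (x 0 / x 1) := by
        rw [wrh_eq _ a hd, eval_eq_sum_range' (Nat.lt_succ_of_le (natDegree_wr _ a hd)), Finset.mul_sum]
        refine Finset.sum_congr rfl fun m hm => ?_
        rw [Finset.mem_range] at hm
        obtain ⟨j, hj⟩ : ∃ j, 2 * d a - 2 = m + j := ⟨2 * d a - 2 - m, by omega⟩
        rw [hj, Nat.add_sub_cancel_left, div_pow]
        show W'.coeff m * x 0 ^ m * x 1 ^ j = x 1 ^ (m + j) * (W'.coeff m * (x 0 ^ m / x 1 ^ m))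
        rw [pow_add]
        field_simp
      rw [h1] at hw
      exact (mul_eq_zero.1 hw).resolve_left (pow_ne_zero _ hx1)
    have hlt : ‖(W.map τ).eval (z : PadicAlgCl p)‖ < 1 := by
      have h1 : (W.map τ).eval (z : PadicAlgCl p) = (((wr c' a).eval z : Oc p) : PadicAlgCl p) := by
        rw [← hlift]
        exact eval_map_apply (algebraMap (Oc p) (PadicAlgCl p)) z
      rw [h1, ← mem_mm, ← Ideal.Quotient.eq_zero_iff_mem]
      have h2 := eval_map_apply (Ideal.Quotient.mk (mm p)) (p := wr c' a) z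
      rw [hred, hz, hev] at h2
      exact h2.symm
    obtain ⟨r, hr, hr1⟩ := exists_root98 τ W hunit z (mem_Oc.1 z.2) hlt
    refine ⟨![r, 1], fun h => one_ne_zero (congrFun h 1), by rw [hwy, hr], fun h => absurd h one_ne_zero,
      fun _ h => ?_⟩
    have h2 : (![r, 1] : Fin 2 → ℂ) 0 / (![r, 1] : Fin 2 → ℂ) 1 = r := by simp
    rw [h2] at h ⊢
    rw [hpr, rd_eq τ h, ← hz]
    congr 1
    symm
    rw [Ideal.Quotient.eq, mem_mm]
    exact hr1

end

end Pool.Agent.Helper26.OS
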