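import Pool.Agent.Helper26.OS.Defs

/-!
# OS, block JS: the Jacobian determinant of an étale polynomial map is a constant
-/

set_option autoImplicit false

namespace Pool.Agent.Helper26.OS

open MvPolynomial Pool.Agent.Helper61.TH Pool.Agent.Helper87.FK Pool.Agent.Helper26.OB

noncomputable section

/-- a polynomial without zeros over an algebraically closed field is a constant -/
theorem const_of_ne_zero98 {K : Type} [Field K] [IsAlgClosed K] {m : ℕ} (J : MvPolynomial (Fin m) K)
    (hJ : ∀ t, eval t J ≠ 0) : ∃ c : K, J = C c := by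
  have h1 : zeroLocus K (Ideal.span {J}) = ∅ := by
    rw [zeroLocus_span]
    ext t
    simp only [Set.mem_singleton_iff, forall_eq, Set.mem_ofPred_eq, Set.mem_empty_iff_false, iff_false]
    exact hJ t
  have h2 := vanishingIdeal_zeroLocus_eq_radical (K := K) (Ideal.span {J})
  rw [h1, vanishingIdeal_empty] at h2
  have h3 : Ideal.span {J} = ⊤ := Ideal.radical_eq_top.1 h2.symm
  have h4 : IsUnit J := Ideal.span_singleton_eq_top.1 h3
  obtain ⟨c, -, hc⟩ := isUnit_iff_eq_C_of_isReduced.1 h4
  exact ⟨c, hc⟩

/-- **JS**: the Jacobian determinant of an étale map is a constant -/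
theorem jacS (A : Subfield ℂ) {m : ℕ} (F : Fin m → MvPolynomial (Fin m) ℂ) (hF : ∀ i s, coeff s (F i) ∈ A)
    (het : ∀ t, (jac F t).det ≠ 0) : ∃ c ∈ A, c ≠ 0 ∧ ∀ t, (jac F t).det = c := by
  set J : MvPolynomial (Fin m) ℂ := (Matrix.of fun i j => pderiv j (F i)).det with hJ
  have hev : ∀ t, (jac F t).det = eval t J := by
    intro t
    rw [hJ, RingHom.map_det]
    rfl
  obtain ⟨c, hc⟩ := const_of_ne_zero98 J fun t => by rw [← hev]; exact het t
  have hc2 : ∀ t, (jac F t).det = c := fun t => by rw [hev, hc, eval_C]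
  refine ⟨c, ?_, ?_, hc2⟩
  · rw [← hc2 0]
    have h1 : ∀ i j, jac F 0 i j ∈ A := by
      intro i j
      show eval 0 (pderiv j (F i)) ∈ A
      have h2 : ∃ G : MvPolynomial (Fin m) A, map A.subtype G = F i := by
        have h3 : F i ∈ Set.range (map A.subtype) := by
          rw [mem_range_map_iff_coeffs_subset]
          intro x hx
          rw [coeffs, Finset.coe_image] at hx
          obtain ⟨s, -, rfl⟩ := hx
          exact ⟨⟨_, hF i s⟩, rfl⟩
        exact h3
      obtain ⟨G, hG⟩ := h2
      rw [← hG, pderiv_map]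
      have h4 : (0 : Fin m → ℂ) = A.subtype ∘ (0 : Fin m → A) := by
        funext i
        simp
      have h5 := eval₂_comp_left A.subtype (RingHom.id A) (0 : Fin m → A) (pderiv j G)
      rw [RingHom.comp_id] at h5
      rw [h4, eval_map, ← h5]
      exact Subtype.property _
    rw [Matrix.det_apply]
    refine A.sum_mem fun σ _ => ?_
    rw [Units.smul_def]
    exact zsmul_mem (A.prod_mem fun i _ => h1 _ _) _
  · rw [← hc2 0]
    exact het 0

end

end Pool.Agent.Helper26.OS
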